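import Pool.Agent.Helper78.UF.Params

/-!
# Gram–Schmidt vectors and Gram determinants
-/

set_option autoImplicit false

namespace Pool.Agent.Helper78.UF

section LA
open scoped RealInnerProductSpace
variable {V : Type*} [NormedAddCommGroup V] [InnerProductSpace ℝ V]

/-- the first `k` vectors span the same space as the first `k` Gram–Schmidt vectors -/
theorem span_gs (v : ℕ → V) (k : ℕ) :
    Submodule.span ℝ (gs v '' Set.Iio k) = Submodule.span ℝ (v '' Set.Iio k) :=
  InnerProductSpace.span_gramSchmidt_Iio ℝ v k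

theorem gs_orth (v : ℕ → V) {i j : ℕ} (h : i ≠ j) : ⟪gs v i, gs v j⟫ = 0 :=
  InnerProductSpace.gramSchmidt_orthogonal ℝ v h

theorem inner_span_zero {S : Set V} {w u : V} (hS : ∀ s ∈ S, ⟪s, w⟫ = 0)
    (hu : u ∈ Submodule.span ℝ S) : ⟪u, w⟫ = 0 := by
  induction hu using Submodule.span_induction with
  | mem x hx => exact hS x hx
  | zero => exact inner_zero_left _
  | add x y _ _ hx hy => rw [inner_add_left, hx, hy, add_zero]
  | smul a x _ hx => rw [inner_smul_left, hx, mul_zero]

theorem gs_orth_span (v : ℕ → V) {k : ℕ} {u : V} (hu : u ∈ Submodule.span ℝ (v '' Set.Iio k)) :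
    ⟪u, gs v k⟫ = 0 := by
  rw [← span_gs] at hu
  refine inner_span_zero ?_ hu
  rintro s ⟨i, hi, rfl⟩
  exact gs_orth v (ne_of_lt hi)

/-- the formula used by the algorithm -/
theorem gs_formula (v : ℕ → V) (k : ℕ) :
    gs v k = v k - ∑ i ∈ Finset.range k, (⟪v k, gs v i⟫ / ⟪gs v i, gs v i⟫) • gs v i := by
  have h := InnerProductSpace.gramSchmidt_def'' ℝ v k
  have h2 : Finset.Iio k = Finset.range k := by
    ext i; simp
  rw [eq_sub_iff_add_eq]
  rw [h2] at h
  conv_rhs => rw [h]
  unfold gs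
  congr 1
  refine Finset.sum_congr rfl fun i _ => ?_
  rw [real_inner_self_eq_norm_sq, real_inner_comm]
  rfl

theorem gs_mem (v : ℕ → V) {i k : ℕ} (h : i < k) :
    gs v i ∈ Submodule.span ℝ (v '' Set.Iio k) := by
  rw [← span_gs]
  exact Submodule.subset_span ⟨i, h, rfl⟩

theorem sub_gs_mem (v : ℕ → V) (k : ℕ) :
    v k - gs v k ∈ Submodule.span ℝ (v '' Set.Iio k) := by
  have h : v k - gs v k =
      ∑ i ∈ Finset.range k, (⟪v k, gs v i⟫ / ⟪gs v i, gs v i⟫) • gs v i := by
    rw [gs_formula v k]; abel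
  rw [h]
  exact Submodule.sum_mem _ fun i hi =>
    Submodule.smul_mem _ _ (gs_mem v (Finset.mem_range.1 hi))

/-- uniqueness of the orthogonal component -/
theorem comp_unique {S : Set V} {b w w' : V} (h1 : b - w ∈ Submodule.span ℝ S)
    (h2 : ∀ s ∈ S, ⟪s, w⟫ = 0) (h1' : b - w' ∈ Submodule.span ℝ S)
    (h2' : ∀ s ∈ S, ⟪s, w'⟫ = 0) : w = w' := by
  have h3 : w - w' ∈ Submodule.span ℝ S := by
    have := Submodule.sub_mem _ h1' h1
    have e : b - w' - (b - w) = w - w' := by abel
    rwa [e] at this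
  have h4 : ⟪w - w', w - w'⟫ = 0 := by
    rw [inner_sub_right, inner_span_zero h2 h3, inner_span_zero h2' h3, sub_zero]
  exact sub_eq_zero.1 (inner_self_eq_zero.1 h4)

/-- characterisation of the Gram–Schmidt vector -/
theorem gs_unique (v : ℕ → V) {k : ℕ} {w : V}
    (h1 : v k - w ∈ Submodule.span ℝ (v '' Set.Iio k))
    (h2 : ∀ i < k, ⟪v i, w⟫ = 0) : w = gs v k := by
  refine comp_unique h1 ?_ (sub_gs_mem v k) ?_
  · rintro s ⟨i, hi, rfl⟩
    exact h2 i hi
  · intro s hs
    exact gs_orth_span v (Submodule.subset_span hs)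

/-- Gram–Schmidt vectors do not change if multiples of the earlier vectors are added. -/
theorem gs_congr_span {v v' : ℕ → V} {n : ℕ}
    (h : ∀ k < n, v' k - v k ∈ Submodule.span ℝ (v '' Set.Iio k)) :
    ∀ k ≤ n, Submodule.span ℝ (v' '' Set.Iio k) = Submodule.span ℝ (v '' Set.Iio k) := by
  intro k
  induction k with
  | zero =>
    intro _
    have e : Set.Iio 0 = (∅ : Set ℕ) := by ext i; simp
    rw [e]; simp
  | succ k ih =>
    intro hk
    have ih' := ih (by omega)
    have e : Set.Iio (k + 1) = insert k (Set.Iio k) := by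
      ext i; simp only [Set.mem_Iio, Set.mem_insert_iff]; omega
    rw [e, Set.image_insert_eq, Set.image_insert_eq, Submodule.span_insert, Submodule.span_insert,
      ih']
    have hd := h k (by omega)
    apply le_antisymm
    · refine sup_le ?_ le_sup_right
      rw [Submodule.span_singleton_le_iff_mem]
      have e2 : v' k = v k + (v' k - v k) := by abel
      rw [e2]
      exact Submodule.add_mem_sup (Submodule.mem_span_singleton_self _) hd
    · refine sup_le ?_ le_sup_right
      rw [Submodule.span_singleton_le_iff_mem]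
      have e2 : v k = v' k + -(v' k - v k) := by abel
      rw [e2]
      exact Submodule.add_mem_sup (Submodule.mem_span_singleton_self _) (Submodule.neg_mem _ hd)

theorem gs_congr {v v' : ℕ → V} {n : ℕ}
    (h : ∀ k < n, v' k - v k ∈ Submodule.span ℝ (v '' Set.Iio k)) :
    ∀ k < n, gs v' k = gs v k := by
  intro k hk
  symm
  have hs := gs_congr_span h k hk.le
  apply gs_unique
  · rw [hs]
    have e : v' k - gs v k = (v' k - v k) + (v k - gs v k) := by abel
    rw [e]
    exact Submodule.add_mem _ (h k hk) (sub_gs_mem v k)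
  · intro i hi
    apply gs_orth_span
    rw [← hs]
    exact Submodule.subset_span ⟨i, hi, rfl⟩

/-- the coefficients of `v i` in terms of the Gram–Schmidt vectors -/
noncomputable def gmu (v : ℕ → V) (i a : ℕ) : ℝ :=
  if a < i then ⟪v i, gs v a⟫ / ⟪gs v a, gs v a⟫ else if a = i then 1 else 0

theorem eq_sum_gmu (v : ℕ → V) {n i : ℕ} (h : i < n) :
    v i = ∑ a ∈ Finset.range n, gmu v i a • gs v a := by
  have h1 : ∑ a ∈ Finset.range n, gmu v i a • gs v a =
      ∑ a ∈ Finset.range (i + 1), gmu v i a • gs v a := by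
    symm
    apply Finset.sum_subset
    · intro a ha
      rw [Finset.mem_range] at *
      omega
    · intro a _ ha
      rw [Finset.mem_range] at ha
      have : gmu v i a = 0 := by
        unfold gmu
        rw [if_neg (by omega), if_neg (by omega)]
      rw [this, zero_smul]
  rw [h1, Finset.sum_range_succ]
  have h2 : gmu v i i = 1 := by
    unfold gmu; rw [if_neg (lt_irrefl _), if_pos rfl]
  have h3 : ∑ a ∈ Finset.range i, gmu v i a • gs v a =
      ∑ a ∈ Finset.range i, (⟪v i, gs v a⟫ / ⟪gs v a, gs v a⟫) • gs v a := by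
    refine Finset.sum_congr rfl fun a ha => ?_
    unfold gmu
    rw [if_pos (Finset.mem_range.1 ha)]
  rw [h2, h3, one_smul]
  have := gs_formula v i
  rw [eq_sub_iff_add_eq] at this
  rw [add_comm]
  exact this.symm

theorem inner_sum_gs (v : ℕ → V) (s : Finset ℕ) (x y : ℕ → ℝ) :
    ⟪∑ a ∈ s, x a • gs v a, ∑ a ∈ s, y a • gs v a⟫ = ∑ a ∈ s, x a * y a * ‖gs v a‖ ^ 2 := by
  rw [sum_inner]
  refine Finset.sum_congr rfl fun a ha => ?_
  rw [inner_sum, Finset.sum_eq_single_of_mem a ha]
  · rw [inner_smul_left, inner_smul_right, real_inner_self_eq_norm_sq]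
    simp only [conj_trivial]
    ring
  · intro b _ hb
    rw [inner_smul_left, inner_smul_right, gs_orth v hb.symm]
    simp

theorem gd_eq_prod (v : ℕ → V) (k : ℕ) :
    gd v k = ∏ i ∈ Finset.range k, ‖gs v i‖ ^ 2 := by
  set L : Matrix (Fin k) (Fin k) ℝ := Matrix.of fun i a => gmu v i a with hL
  set D : Matrix (Fin k) (Fin k) ℝ := Matrix.diagonal fun a => ‖gs v a‖ ^ 2 with hD
  have h1 : (Matrix.of fun i j : Fin k => ⟪v i, v j⟫) = L * D * L.transpose := by
    ext i j
    rw [Matrix.mul_apply]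
    simp only [Matrix.of_apply, hD, Matrix.mul_diagonal, Matrix.transpose_apply, hL]
    rw [eq_sum_gmu v i.2, eq_sum_gmu v j.2, inner_sum_gs]
    rw [Finset.sum_range]
    refine Finset.sum_congr rfl fun a _ => ?_
    ring
  have h2 : L.det = 1 := by
    rw [Matrix.det_of_isLowerTriangular]
    · apply Finset.prod_eq_one
      intro i _
      simp only [hL, Matrix.of_apply]
      unfold gmu; rw [if_neg (lt_irrefl _), if_pos rfl]
    · intro i j hij
      have hij' : i < j := hij
      simp only [hL, Matrix.of_apply]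
      unfold gmu
      have : (i : ℕ) < j := hij'
      rw [if_neg (by omega), if_neg (by omega)]
  unfold gd
  rw [h1, Matrix.det_mul, Matrix.det_mul, Matrix.det_transpose, h2, hD, Matrix.det_diagonal,
    Finset.prod_range]
  ring

/-- exchange of `v i` and `v (i + 1)` -/
theorem gd_swap (v : ℕ → V) (i : ℕ) {k : ℕ} (hk : k ≤ i ∨ i + 2 ≤ k) :
    gd (v ∘ Equiv.swap i (i + 1)) k = gd v k := by
  rcases hk with hk | hk
  · unfold gd
    congr 1
    ext a b
    simp only [Matrix.of_apply, Function.comp]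
    rw [Equiv.swap_apply_of_ne_of_ne (by omega) (by omega),
      Equiv.swap_apply_of_ne_of_ne (by omega) (by omega)]
  · unfold gd
    set σ : Equiv.Perm (Fin k) := Equiv.swap ⟨i, by omega⟩ ⟨i + 1, by omega⟩ with hσ
    have h1 : ∀ a : Fin k, ((σ a : Fin k) : ℕ) = Equiv.swap i (i + 1) (a : ℕ) := by
      intro a
      rw [hσ, Equiv.swap_apply_def, Equiv.swap_apply_def]
      by_cases h1 : (a : ℕ) = i
      · rw [if_pos (Fin.ext h1), if_pos h1]
      · by_cases h2 : (a : ℕ) = i + 1
        · rw [if_neg (fun h => h1 (congrArg Fin.val h)), if_pos (Fin.ext h2), if_neg h1, if_pos h2]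
        · rw [if_neg (fun h => h1 (congrArg Fin.val h)), if_neg (fun h => h2 (congrArg Fin.val h)),
            if_neg h1, if_neg h2]
    have h2 : (Matrix.of fun a b : Fin k =>
        ⟪(v ∘ Equiv.swap i (i + 1)) a, (v ∘ Equiv.swap i (i + 1)) b⟫) =
        (Matrix.of fun a b : Fin k => ⟪v a, v b⟫).submatrix σ σ := by
      ext a b
      simp only [Matrix.of_apply, Function.comp, Matrix.submatrix_apply, h1]
    rw [h2, Matrix.det_submatrix_equiv_self]

theorem gs_swap_vec (v : ℕ → V) (i : ℕ) :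
    gs (v ∘ Equiv.swap i (i + 1)) i =
      gs v (i + 1) + (⟪v (i + 1), gs v i⟫ / ⟪gs v i, gs v i⟫) • gs v i := by
  have hv : ∀ j < i, (v ∘ Equiv.swap i (i + 1)) j = v j := by
    intro j hj
    simp only [Function.comp]
    rw [Equiv.swap_apply_of_ne_of_ne (by omega) (by omega)]
  have hs : (v ∘ Equiv.swap i (i + 1)) '' Set.Iio i = v '' Set.Iio i :=
    Set.image_congr fun j hj => hv j hj
  symm
  apply gs_unique
  · rw [hs]
    have e1 : (v ∘ Equiv.swap i (i + 1)) i = v (i + 1) := by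
      simp only [Function.comp, Equiv.swap_apply_left]
    rw [e1]
    have e2 := gs_formula v (i + 1)
    rw [Finset.sum_range_succ] at e2
    have e3 : v (i + 1) - (gs v (i + 1) + (⟪v (i + 1), gs v i⟫ / ⟪gs v i, gs v i⟫) • gs v i) =
        ∑ a ∈ Finset.range i, (⟪v (i + 1), gs v a⟫ / ⟪gs v a, gs v a⟫) • gs v a := by
      rw [e2]; abel
    rw [e3]
    exact Submodule.sum_mem _ fun a ha =>
      Submodule.smul_mem _ _ (gs_mem v (Finset.mem_range.1 ha))
  · intro j hj
    rw [hv j hj, inner_add_right, inner_smul_right,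
      gs_orth_span v (Submodule.subset_span ⟨j, by simp only [Set.mem_Iio]; omega, rfl⟩),
      gs_orth_span v (Submodule.subset_span ⟨j, hj, rfl⟩)]
    simp

theorem gs_swap (v : ℕ → V) (i : ℕ) (_h : gs v i ≠ 0) :
    ‖gs (v ∘ Equiv.swap i (i + 1)) i‖ ^ 2 =
      ‖gs v (i + 1)‖ ^ 2 +
        (⟪v (i + 1), gs v i⟫ / ⟪gs v i, gs v i⟫) ^ 2 * ‖gs v i‖ ^ 2 := by
  rw [gs_swap_vec, ← real_inner_self_eq_norm_sq, inner_add_left, inner_add_right, inner_add_right,
    inner_smul_left, inner_smul_right, inner_smul_right, inner_smul_left,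
    gs_orth v (show i ≠ i + 1 by omega), gs_orth v (show i + 1 ≠ i by omega),
    real_inner_self_eq_norm_sq, real_inner_self_eq_norm_sq]
  simp only [conj_trivial]
  ring

/-- length of a vector with bounded coefficients -/
theorem norm_sq_eq (v : ℕ → V) (k : ℕ) :
    ‖v k‖ ^ 2 = ‖gs v k‖ ^ 2 + ∑ i ∈ Finset.range k,
      (⟪v k, gs v i⟫ / ⟪gs v i, gs v i⟫) ^ 2 * ‖gs v i‖ ^ 2 := by
  rw [← real_inner_self_eq_norm_sq (v k)]
  conv_lhs => rw [eq_sum_gmu v (Nat.lt_succ_self k)]
  rw [inner_sum_gs, Finset.sum_range_succ]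
  have h2 : gmu v k k = 1 := by
    unfold gmu; rw [if_neg (lt_irrefl _), if_pos rfl]
  rw [h2, add_comm]
  congr 1
  · ring
  · refine Finset.sum_congr rfl fun a ha => ?_
    unfold gmu
    rw [if_pos (Finset.mem_range.1 ha)]
    ring

theorem norm_gs_le (v : ℕ → V) (k : ℕ) : ‖gs v k‖ ≤ ‖v k‖ := by
  have h := norm_sq_eq v k
  have h2 : 0 ≤ ∑ i ∈ Finset.range k,
      (⟪v k, gs v i⟫ / ⟪gs v i, gs v i⟫) ^ 2 * ‖gs v i‖ ^ 2 :=
    Finset.sum_nonneg fun i _ => by positivity
  have h3 : ‖gs v k‖ ^ 2 ≤ ‖v k‖ ^ 2 := by linarith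
  exact (sq_le_sq₀ (norm_nonneg _) (norm_nonneg _)).1 h3

theorem mem_span_iff_gs (v : ℕ → V) (k : ℕ) :
    v k ∈ Submodule.span ℝ (v '' Set.Iio k) ↔ gs v k = 0 := by
  constructor
  · intro h
    have h1 : gs v k ∈ Submodule.span ℝ (v '' Set.Iio k) := by
      have := Submodule.sub_mem _ h (sub_gs_mem v k)
      have e : v k - (v k - gs v k) = gs v k := by abel
      rwa [e] at this
    exact inner_self_eq_zero.1 (gs_orth_span v h1)
  · intro h
    have := sub_gs_mem v k
    rwa [h, sub_zero] at this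

/-- linear independence in terms of the Gram–Schmidt vectors -/
theorem linearIndependent_iff_gs (v : ℕ → V) (n : ℕ) :
    LinearIndependent ℝ (fun i : Fin n => v i) ↔ ∀ k < n, gs v k ≠ 0 := by
  induction n with
  | zero =>
    constructor
    · intro _ k hk; omega
    · intro _
      exact linearIndependent_empty_type
  | succ n ih =>
    rw [linearIndependent_finSucc']
    have e1 : (Fin.init fun i : Fin (n + 1) => v i) = fun i : Fin n => v i := by
      ext i
      simp [Fin.init]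
    have e2 : Set.range (fun i : Fin n => v i) = v '' Set.Iio n := by
      ext x
      constructor
      · rintro ⟨i, rfl⟩
        exact ⟨i, i.2, rfl⟩
      · rintro ⟨i, hi, rfl⟩
        exact ⟨⟨i, hi⟩, rfl⟩
    rw [e1, ih, e2, Fin.val_last, mem_span_iff_gs]
    constructor
    · rintro ⟨h1, h2⟩ k hk
      rcases Nat.lt_succ_iff_lt_or_eq.1 hk with h | h
      · exact h1 k h
      · rw [h]; exact h2
    · intro h
      exact ⟨fun k hk => h k (by omega), h n (by omega)⟩

theorem inner_self_gs (v : ℕ → V) (k : ℕ) : ⟪v k, gs v k⟫ = ‖gs v k‖ ^ 2 := by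
  have e : v k = (v k - gs v k) + gs v k := by abel
  rw [e, inner_add_left, gs_orth_span v (sub_gs_mem v k), real_inner_self_eq_norm_sq, zero_add]

/-- a nonzero integer combination is at least as long as some Gram–Schmidt vector -/
theorem exists_gs_le (v : ℕ → V) (n : ℕ) (z : ℕ → ℤ)
    (hz : ∑ i ∈ Finset.range n, (z i : ℝ) • v i ≠ 0) :
    ∃ k < n, ‖gs v k‖ ≤ ‖∑ i ∈ Finset.range n, (z i : ℝ) • v i‖ := by
  induction n with
  | zero => simp at hz
  | succ n ih =>
    by_cases h : z n = 0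
    · have e : ∑ i ∈ Finset.range (n + 1), (z i : ℝ) • v i =
          ∑ i ∈ Finset.range n, (z i : ℝ) • v i := by
        rw [Finset.sum_range_succ, h]; simp
      rw [e] at hz ⊢
      obtain ⟨k, hk, hk'⟩ := ih hz
      exact ⟨k, by omega, hk'⟩
    · refine ⟨n, by omega, ?_⟩
      set x := ∑ i ∈ Finset.range (n + 1), (z i : ℝ) • v i with hx
      have h1 : ⟪x, gs v n⟫ = z n * ‖gs v n‖ ^ 2 := by
        rw [hx, Finset.sum_range_succ, inner_add_left, inner_smul_left, inner_self_gs]
        have : ⟪∑ i ∈ Finset.range n, (z i : ℝ) • v i, gs v n⟫ = 0 := by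
          apply gs_orth_span
          exact Submodule.sum_mem _ fun i hi =>
            Submodule.smul_mem _ _ (Submodule.subset_span ⟨i, Finset.mem_range.1 hi, rfl⟩)
        rw [this]
        simp
      by_cases h0 : ‖gs v n‖ = 0
      · rw [h0]; exact norm_nonneg _
      · have hpos : 0 < ‖gs v n‖ := lt_of_le_of_ne (norm_nonneg _) (Ne.symm h0)
        have h2 := abs_real_inner_le_norm x (gs v n)
        rw [h1, abs_mul, abs_of_nonneg (sq_nonneg ‖gs v n‖), sq, ← mul_assoc] at h2
        have h3 : |(z n : ℝ)| * ‖gs v n‖ ≤ ‖x‖ := le_of_mul_le_mul_right h2 hpos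
        have h4 : (1 : ℝ) ≤ |(z n : ℝ)| := by
          have := Int.one_le_abs h
          exact_mod_cast this
        calc ‖gs v n‖ = 1 * ‖gs v n‖ := (one_mul _).symm
          _ ≤ |(z n : ℝ)| * ‖gs v n‖ := by gcongr
          _ ≤ ‖x‖ := h3

end LA

section LAint
open scoped RealInnerProductSpace

theorem inner_evec (m : ℕ) (a b : List ℤ) :
    ⟪evec m a, evec m b⟫ = ((∑ i : Fin m, a.getD i 0 * b.getD i 0 : ℤ) : ℝ) := by
  rw [PiLp.inner_apply]
  push_cast
  refine Finset.sum_congr rfl fun i _ => ?_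
  simp only [evec]
  rw [real_inner_eq_re_inner ℝ]
  simp [mul_comm]

/-- the integral Gram matrix -/
def gramZ (m : ℕ) (B : List (List ℤ)) (k : ℕ) : Matrix (Fin k) (Fin k) ℤ :=
  Matrix.of fun i j => ∑ c : Fin m, (B.getD i []).getD c 0 * (B.getD j []).getD c 0

theorem gram_eq_map (m : ℕ) (B : List (List ℤ)) (k : ℕ) :
    (Matrix.of fun i j : Fin k => ⟪evec m (B.getD i []), evec m (B.getD j [])⟫) =
      (gramZ m B k).map (Int.castRingHom ℝ) := by
  ext i j
  simp only [Matrix.of_apply, Matrix.map_apply, gramZ]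
  rw [inner_evec]
  rfl

/-- the Gram determinants of integer vectors are integers -/
theorem gd_eq_cast {m : ℕ} (B : List (List ℤ)) (k : ℕ) :
    gd (fun i => evec m (B.getD i [])) k = ((gramZ m B k).det : ℤ) := by
  unfold gd
  rw [gram_eq_map, ← RingHom.mapMatrix_apply, ← RingHom.map_det]
  rfl

theorem gd_int {m : ℕ} (B : List (List ℤ)) (k : ℕ) :
    ∃ z : ℤ, gd (fun i => evec m (B.getD i [])) k = z :=
  ⟨_, gd_eq_cast B k⟩

/-- the projection is orthogonal to the Gram–Schmidt vectors -/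
theorem comp_orth {V : Type*} [NormedAddCommGroup V] [InnerProductSpace ℝ V] (v : ℕ → V) (b : V)
    (k : ℕ) {j : ℕ} (hj : j < k) :
    ⟪gs v j, b - ∑ i ∈ Finset.range k, (⟪b, gs v i⟫ / ⟪gs v i, gs v i⟫) • gs v i⟫ = 0 := by
  rw [inner_sub_right, inner_sum, Finset.sum_eq_single_of_mem j (Finset.mem_range.2 hj)]
  · rw [inner_smul_right]
    by_cases h : gs v j = 0
    · rw [h]; simp
    · have h' : ⟪gs v j, gs v j⟫ ≠ 0 := inner_self_ne_zero.2 h
      rw [div_mul_cancel₀ _ h', real_inner_comm, sub_self]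
  · intro i _ hi
    rw [inner_smul_right, gs_orth v hi.symm, mul_zero]

/-- Cramer: `gd v k` is a denominator of the component of `v j` orthogonal to the first `k` vectors -/
theorem gd_smul_int {m : ℕ} (B : List (List ℤ)) (v : ℕ → EuclideanSpace ℝ (Fin m))
    (hv : v = fun i => evec m (B.getD i [])) (k : ℕ) (hk : gd v k ≠ 0) (b : List ℤ) (c : Fin m) :
    ∃ z : ℤ, (gd v k • (evec m b - ∑ i ∈ Finset.range k,
      (⟪evec m b, gs v i⟫ / ⟪gs v i, gs v i⟫) • gs v i)) c = z := by
  set G := gramZ m B k with hG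
  set r : Fin k → ℤ := fun j => ∑ c : Fin m, (B.getD j []).getD c 0 * b.getD c 0 with hr
  set Y : Fin k → ℤ := G.adjugate.mulVec r with hY
  have hGY : G.mulVec Y = G.det • r := by
    rw [hY, Matrix.mulVec_mulVec, Matrix.mul_adjugate, Matrix.smul_mulVec, Matrix.one_mulVec]
  have hdet : gd v k = (G.det : ℤ) := by rw [hv]; exact gd_eq_cast B k
  have hdet0 : ((G.det : ℤ) : ℝ) ≠ 0 := by rw [← hdet]; exact hk
  set w : EuclideanSpace ℝ (Fin m) :=
    evec m b - ∑ j : Fin k, ((Y j : ℝ) / (G.det : ℤ)) • v j with hw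
  have horth : ∀ i < k, ⟪v i, w⟫ = 0 := by
    intro i hi
    rw [hw, inner_sub_right, inner_sum]
    have e1 : ⟪v i, evec m b⟫ = (r ⟨i, hi⟩ : ℝ) := by
      rw [hv]
      exact inner_evec m _ _
    have e2 : ∀ j : Fin k, ⟪v i, ((Y j : ℝ) / (G.det : ℤ)) • v j⟫ =
        ((G ⟨i, hi⟩ j * Y j : ℤ) : ℝ) / (G.det : ℤ) := by
      intro j
      have e3 : ⟪v i, v j⟫ = ((G ⟨i, hi⟩ j : ℤ) : ℝ) := by
        rw [hv]
        exact inner_evec m _ _
      rw [inner_smul_right, e3]
      push_cast
      ring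
    rw [e1, Finset.sum_congr rfl fun j _ => e2 j, ← Finset.sum_div, ← Int.cast_sum]
    have e4 : (∑ j : Fin k, G ⟨i, hi⟩ j * Y j) = G.det * r ⟨i, hi⟩ := by
      have := congrFun hGY ⟨i, hi⟩
      simpa [Matrix.mulVec, dotProduct] using this
    rw [e4, Int.cast_mul, mul_div_cancel_left₀ _ hdet0, sub_self]
  have hmem : evec m b - w ∈ Submodule.span ℝ (gs v '' Set.Iio k) := by
    rw [span_gs, hw]
    have e : evec m b - (evec m b - ∑ j : Fin k, ((Y j : ℝ) / (G.det : ℤ)) • v j) =
        ∑ j : Fin k, ((Y j : ℝ) / (G.det : ℤ)) • v j := by abel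
    rw [e]
    exact Submodule.sum_mem _ fun j _ =>
      Submodule.smul_mem _ _ (Submodule.subset_span ⟨j, j.2, rfl⟩)
  have horth' : ∀ s ∈ gs v '' Set.Iio k, ⟪s, w⟫ = 0 := by
    rintro s ⟨j, hj, rfl⟩
    refine inner_span_zero ?_ (gs_mem v (show j < k from hj))
    rintro t ⟨i, hi, rfl⟩
    exact horth i hi
  have hww : w = evec m b - ∑ i ∈ Finset.range k,
      (⟪evec m b, gs v i⟫ / ⟪gs v i, gs v i⟫) • gs v i := by
    refine comp_unique hmem horth' ?_ ?_
    · have e : evec m b - (evec m b - ∑ i ∈ Finset.range k,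
          (⟪evec m b, gs v i⟫ / ⟪gs v i, gs v i⟫) • gs v i) = ∑ i ∈ Finset.range k,
          (⟪evec m b, gs v i⟫ / ⟪gs v i, gs v i⟫) • gs v i := by abel
      rw [e]
      exact Submodule.sum_mem _ fun i hi =>
        Submodule.smul_mem _ _ (Submodule.subset_span ⟨i, Finset.mem_range.1 hi, rfl⟩)
    · rintro s ⟨j, hj, rfl⟩
      exact comp_orth v _ k hj
  rw [← hww, hdet, hw]
  refine ⟨G.det * b.getD c 0 - ∑ j : Fin k, Y j * (B.getD j []).getD c 0, ?_⟩
  have e5 : ∀ j : Fin k, v j c = (((B.getD j []).getD c 0 : ℤ) : ℝ) := by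
    intro j; rw [hv]; rfl
  have e6 : evec m b c = ((b.getD c 0 : ℤ) : ℝ) := rfl
  rw [PiLp.smul_apply, PiLp.sub_apply, e6, WithLp.ofLp_sum, Finset.sum_apply]
  simp only [PiLp.smul_apply, e5, smul_eq_mul]
  rw [mul_sub, Finset.mul_sum, Int.cast_sub, Int.cast_mul, Int.cast_sum]
  congr 1
  refine Finset.sum_congr rfl fun j _ => ?_
  rw [Int.cast_mul, ← mul_assoc, mul_div_cancel₀ _ hdet0]

end LAint

end Pool.Agent.Helper78.UF
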